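import Mathlib
import Pool.Agent.Helper58.TropDefs
import Pool.Agent.Helper58.Trop6

set_option autoImplicit false

namespace Pool.Agent.Results.MP_835643_co.StableOnComponents

open Pool.Agent.Helper58.TropDefs

/-- Let `f_1, …, f_k` be tropical polynomials in `n ≤ k` variables such that all `n`-fold stable
intersections of their hypersurfaces are nonempty. Then every connected component of the
intersection of all the hypersurfaces contains a point of the stable intersection of some `n`
of them. -/
theorem result {n k : ℕ} (hk : n ≤ k) (f : Fin k → TropicalPolynomial n)
    (hstab : ∀ J : Finset (Fin k), J.card = n → (stableIntersection f J).Nonempty) :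
    ∀ x ∈ ⋂ i, (f i).hypersurface, ∃ J : Finset (Fin k), J.card = n ∧
      (connectedComponentIn (⋂ i, (f i).hypersurface) x ∩ stableIntersection f J).Nonempty :=
  Pool.Agent.Helper58.Trop.main hk f hstab

end Pool.Agent.Results.MP_835643_co.StableOnComponents
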